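import Pool.Agent.V11232.PG.OndUpper

/-!
The hierarchy of the families `OND(P^{-ε}, n)`, `n ≥ 1`, is strict.
-/

namespace Pool.Agent.Results.MP_67c3d0_lc.OndStrict

open Pool.Agent.V11232.PG

/-- For every `n ≥ 1` the family `OND(P^{-ε}, n)` is strictly included in `OND(P^{-ε}, n + 1)`. -/
theorem result (n : ℕ) (hn : 1 ≤ n) :
    (∀ T : Type, OND n T ⊆ OND (n + 1) T) ∧
      ∃ T : Type, Finite T ∧ ∃ L : Language T, L ∈ OND (n + 1) T ∧ L ∉ OND n T := by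
  refine ⟨fun T L ⟨G, h1, h2, h3⟩ => ⟨G, h1, by omega, h3⟩, Fin n, inferInstance, Ln n,
    ⟨gn n, gn_propagating n, gn_ond n, gn_lang n⟩, ?_⟩
  rintro ⟨G, h1, h2, h3⟩
  have := lower h1 hn h3
  omega

end Pool.Agent.Results.MP_67c3d0_lc.OndStrict
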