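import Pool.Agent.V11232.PG.Main

/-!
Every propagating programmed grammar has an equivalent propagating programmed grammar in one-ND
rule normal form.
-/

namespace Pool.Agent.Results.MP_67c3d0_lc.OneNDNormalForm

open Pool.Agent.V11232.PG

/-- Every propagating programmed grammar has an equivalent propagating programmed grammar in
one-ND rule normal form. -/
theorem result (T : Type) [Finite T] (G : PG T) (hG : G.Propagating) :
    ∃ G' : PG T, G'.Propagating ∧ G'.OneND ∧ G'.lang = G.lang :=
  ⟨GG G, GG_propagating G hG, GG_oneND G, lang_eq G hG⟩

end Pool.Agent.Results.MP_67c3d0_lc.OneNDNormalForm
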